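import Pool.Agent.W95.BK.Stm

/-!
# Elementary inequalities for `Nw`, `Iw`, `Mx` (project BK, subtask NWI)
-/

set_option autoImplicit false

open Polynomial

namespace Pool.Agent.W564.BK

universe u

section abs

variable (A B : ℕ → ℝ) (d : ℕ)

noncomputable def v (r : ℝ) (i : ℕ) : ℝ := max (A i) (r * B i) * r ^ i

noncomputable def M (r : ℝ) : ℝ := (Finset.range (d + 1)).sup' ⟨0, by simp⟩ (v A B r)

noncomputable def N (r : ℝ) : ℕ := sInf {i | i ≤ d ∧ v A B r i = M A B d r}

noncomputable def I (r : ℝ) : ℕ := sSup {i | i ≤ d ∧ v A B r i = M A B d r}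

structure Hyp : Prop where
  hA : ∀ i, 0 ≤ A i
  hB : ∀ i, 0 ≤ B i
  hA0 : ∀ i, d < i → A i = 0
  hB0 : ∀ i, d < i → B i = 0
  hex : ∃ i, 0 < B i

variable {A B d}

namespace Hyp

variable (h : Hyp A B d)
include h

lemma v_nonneg {r : ℝ} (hr : 0 < r) (i : ℕ) : 0 ≤ v A B r i :=
  mul_nonneg ((h.hA i).trans (le_max_left _ _)) (pow_nonneg hr.le _)

lemma v_le {r : ℝ} (hr : 0 < r) (i : ℕ) : v A B r i ≤ M A B d r := by
  have h1 : ∀ j ≤ d, v A B r j ≤ M A B d r := fun j hj =>
    Finset.le_sup' (v A B r) (Finset.mem_range.2 (by omega))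
  by_cases hi : i ≤ d
  · exact h1 i hi
  · have : v A B r i = 0 := by
      unfold v
      rw [h.hA0 i (by omega), h.hB0 i (by omega)]
      simp
    rw [this]
    exact (h.v_nonneg hr 0).trans (h1 0 (by omega))

lemma M_pos {r : ℝ} (hr : 0 < r) : 0 < M A B d r := by
  obtain ⟨i, hi⟩ := h.hex
  refine lt_of_lt_of_le ?_ (h.v_le hr i)
  exact mul_pos (lt_of_lt_of_le (mul_pos hr hi) (le_max_right _ _)) (pow_pos hr _)

omit h in
lemma exists_max (r : ℝ) : ({i | i ≤ d ∧ v A B r i = M A B d r} : Set ℕ).Nonempty := by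
  obtain ⟨i, hi, hi2⟩ := Finset.exists_mem_eq_sup' (s := Finset.range (d + 1)) ⟨0, by simp⟩
    (v A B r)
  exact ⟨i, by have := Finset.mem_range.1 hi; omega, hi2.symm⟩

omit h in
lemma N_mem (r : ℝ) : N A B d r ≤ d ∧ v A B r (N A B d r) = M A B d r :=
  Nat.sInf_mem (exists_max r)

omit h in
lemma I_mem (r : ℝ) : I A B d r ≤ d ∧ v A B r (I A B d r) = M A B d r :=
  Nat.sSup_mem (exists_max r) ⟨d, fun _ hi => hi.1⟩

lemma lt_of_lt_N {r : ℝ} (hr : 0 < r) {i : ℕ} (hi : i < N A B d r) :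
    v A B r i < M A B d r := by
  refine lt_of_le_of_ne (h.v_le hr i) fun he => ?_
  have hid : i ≤ d := by have := (N_mem (A := A) (B := B) (d := d) r).1; omega
  have : N A B d r ≤ i := Nat.sInf_le ⟨hid, he⟩
  omega

lemma lt_of_I_lt {r : ℝ} (hr : 0 < r) {i : ℕ} (hi : I A B d r < i) :
    v A B r i < M A B d r := by
  refine lt_of_le_of_ne (h.v_le hr i) fun he => ?_
  by_cases hid : i ≤ d
  · have : i ≤ I A B d r := le_csSup ⟨d, fun _ hi => hi.1⟩ ⟨hid, he⟩
    omega
  · have h0 : v A B r i = 0 := by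
      unfold v
      rw [h.hA0 i (by omega), h.hB0 i (by omega)]
      simp
    have := h.M_pos hr
    linarith

omit h in
lemma N_le_I {r : ℝ} : N A B d r ≤ I A B d r :=
  Nat.sInf_le (I_mem r)

/-- `t^i v r i ≤ v r' i` -/
lemma low {r r' : ℝ} (hr : 0 < r) (hrr : r ≤ r') (i : ℕ) :
    (r' / r) ^ i * v A B r i ≤ v A B r' i := by
  have hr' : 0 < r' := lt_of_lt_of_le hr hrr
  have e : (r' / r) ^ i * v A B r i = max (A i) (r * B i) * r' ^ i := by
    unfold v
    rw [div_pow]
    have : r ^ i ≠ 0 := (pow_pos hr _).ne'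
    field_simp
  rw [e]
  unfold v
  refine mul_le_mul_of_nonneg_right ?_ (pow_nonneg hr'.le _)
  exact max_le_max le_rfl (mul_le_mul_of_nonneg_right hrr (h.hB i))

/-- `v r' i ≤ t^(i+1) v r i` -/
lemma high {r r' : ℝ} (hr : 0 < r) (hrr : r ≤ r') (i : ℕ) :
    v A B r' i ≤ (r' / r) ^ (i + 1) * v A B r i := by
  have hr' : 0 < r' := lt_of_lt_of_le hr hrr
  have e : (r' / r) ^ (i + 1) * v A B r i = (r' / r) * max (A i) (r * B i) * r' ^ i := by
    unfold v
    rw [pow_succ, div_pow]
    have : r ^ i ≠ 0 := (pow_pos hr _).ne'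
    field_simp
  rw [e]
  unfold v
  refine mul_le_mul_of_nonneg_right ?_ (pow_nonneg hr'.le _)
  refine max_le ?_ ?_
  · have h1 : 1 ≤ r' / r := (one_le_div hr).2 hrr
    calc A i ≤ 1 * max (A i) (r * B i) := by rw [one_mul]; exact le_max_left _ _
      _ ≤ _ := mul_le_mul_of_nonneg_right h1 ((h.hA i).trans (le_max_left _ _))
  · calc r' * B i = (r' / r) * (r * B i) := by field_simp
      _ ≤ _ := mul_le_mul_of_nonneg_left (le_max_right _ _) (by positivity)

lemma logs {r r' : ℝ} (hr : 0 < r) (hrr : r < r') :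
    (N A B d r : ℝ) * Real.log (r' / r) ≤ Real.log (M A B d r') - Real.log (M A B d r) ∧
    Real.log (M A B d r') - Real.log (M A B d r) ≤
      (N A B d r' + 1) * Real.log (r' / r) := by
  have hr' : 0 < r' := hr.trans hrr
  have ht : 0 < r' / r := div_pos hr' hr
  have hM := h.M_pos hr
  have hM' := h.M_pos hr'
  constructor
  · have h1 : (r' / r) ^ (N A B d r) * M A B d r ≤ M A B d r' := by
      have := h.low hr hrr.le (N A B d r)
      rw [(N_mem r).2] at this
      exact this.trans (h.v_le hr' _)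
    have h2 := Real.log_le_log (by positivity) h1
    rw [Real.log_mul (by positivity) hM.ne', Real.log_pow] at h2
    linarith
  · have h1 : M A B d r' ≤ (r' / r) ^ (N A B d r' + 1) * M A B d r := by
      have := h.high hr hrr.le (N A B d r')
      rw [(N_mem r').2] at this
      exact this.trans (mul_le_mul_of_nonneg_left (h.v_le hr _) (by positivity))
    have h2 := Real.log_le_log hM' h1
    rw [Real.log_mul (by positivity) hM.ne', Real.log_pow] at h2
    push_cast at h2
    linarith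

lemma N_mono {r r' : ℝ} (hr : 0 < r) (hrr : r ≤ r') : N A B d r ≤ N A B d r' := by
  rcases hrr.eq_or_lt with rfl | hlt
  · exact le_rfl
  by_contra hcon
  push Not at hcon
  have hr' : 0 < r' := hr.trans hlt
  have ht : 1 ≤ r' / r := (one_le_div hr).2 hrr
  have ht0 : 0 < r' / r := div_pos hr' hr
  have h1 := h.high hr hrr (N A B d r')
  rw [(N_mem r').2] at h1
  have h2 : v A B r (N A B d r') < v A B r (N A B d r) := by
    rw [(N_mem r).2]; exact h.lt_of_lt_N hr hcon
  have h3 := h.low hr hrr (N A B d r)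
  have h4 := h.v_le hr' (N A B d r)
  have h5 : (r' / r) ^ (N A B d r' + 1) * v A B r (N A B d r') <
      (r' / r) ^ (N A B d r' + 1) * v A B r (N A B d r) :=
    mul_lt_mul_of_pos_left h2 (by positivity)
  have h6 : (r' / r) ^ (N A B d r' + 1) * v A B r (N A B d r) ≤
      (r' / r) ^ (N A B d r) * v A B r (N A B d r) :=
    mul_le_mul_of_nonneg_right (pow_le_pow_right₀ ht (by omega)) (h.v_nonneg hr _)
  linarith

omit h in
lemma v_cont (i : ℕ) : Continuous fun r => v A B r i := by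
  unfold v
  fun_prop

lemma N_left {r : ℝ} (hr : 0 < r) :
    ∃ s, 0 < s ∧ s < r ∧ ∀ t, s < t → t < r → N A B d t = N A B d r := by
  have h1 : ∀ i ∈ Finset.range (N A B d r), ∀ᶠ t in nhds r,
      v A B t i < v A B t (N A B d r) := by
    intro i hi
    have : v A B r i < v A B r (N A B d r) := by
      rw [(N_mem r).2]; exact h.lt_of_lt_N hr (Finset.mem_range.1 hi)
    exact ((v_cont i).continuousAt).eventually_lt ((v_cont _).continuousAt) this
  have h2 := (Filter.eventually_all_finset _).2 h1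
  obtain ⟨ε, hε, hball⟩ := Metric.eventually_nhds_iff.1 h2
  refine ⟨max (r / 2) (r - ε), lt_max_of_lt_left (by linarith), max_lt (by linarith) (by linarith),
    ?_⟩
  intro t ht1 ht2
  have ht0 : 0 < t := by have := (max_lt_iff.1 ht1).1; linarith
  have ht3 : r - ε < t := (max_lt_iff.1 ht1).2
  have hb := hball (y := t) (by rw [Real.dist_eq, abs_lt]; constructor <;> linarith)
  refine le_antisymm (h.N_mono ht0 ht2.le) ?_
  by_contra hcon
  push Not at hcon
  have h3 := hb (N A B d t) (Finset.mem_range.2 hcon)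
  rw [(N_mem t).2] at h3
  have := h.v_le ht0 (N A B d r)
  linarith

lemma I_le {r r' : ℝ} (hr : 0 < r) (hrr : r < r') : I A B d r ≤ N A B d r' + 1 := by
  by_contra hcon
  push Not at hcon
  have hr' : 0 < r' := hr.trans hrr
  have ht : 1 < r' / r := (one_lt_div hr).2 hrr
  have ht0 : 0 < r' / r := div_pos hr' hr
  have hM' := h.M_pos hr'
  have h1 := h.high hr hrr.le (N A B d r')
  rw [(N_mem r').2] at h1
  have hpos : 0 < v A B r (N A B d r') := by
    by_contra hc
    push Not at hc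
    have : (r' / r) ^ (N A B d r' + 1) * v A B r (N A B d r') ≤ 0 :=
      mul_nonpos_of_nonneg_of_nonpos (by positivity) hc
    linarith
  have h2 := h.low hr hrr.le (I A B d r)
  have h3 := h.v_le hr' (I A B d r)
  have h4 := h.v_le hr (N A B d r')
  rw [(I_mem r).2] at h2
  -- t^I M r ≤ M r' ≤ t^(k+1) v r k ≤ t^(k+1) M r
  have h5 : (r' / r) ^ (N A B d r' + 1) * v A B r (N A B d r') ≤
      (r' / r) ^ (N A B d r' + 1) * M A B d r := mul_le_mul_of_nonneg_left h4 (by positivity)
  have h6 : (r' / r) ^ (N A B d r' + 1) < (r' / r) ^ (I A B d r) :=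
    pow_lt_pow_right₀ ht hcon
  have h7 := mul_lt_mul_of_pos_right h6 (h.M_pos hr)
  linarith

end Hyp

end abs

section main

variable {K : Type u} [NontriviallyNormedField K] [IsUltrametricDist K]

lemma gn_le (a : K) {r : ℝ} (hr : 0 < r) (h : K[X]) (i : ℕ) :
    ‖(taylor a h).coeff i‖ * r ^ i ≤ Pool.Agent.W95.BK.gn a r h :=
  le_gaussNorm (NormedField.toAbsoluteValue K) (taylor a h) hr.le i

lemma gn_attained (a : K) {r : ℝ} (h : K[X]) :
    ∃ i, Pool.Agent.W95.BK.gn a r h = ‖(taylor a h).coeff i‖ * r ^ i :=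
  exists_eq_gaussNorm (NormedField.toAbsoluteValue K) r (taylor a h)

omit [IsUltrametricDist K] in
lemma taylor_coeff_zero (a : K) {h : K[X]} {d i : ℕ} (hd : h.natDegree ≤ d) (hi : d < i) :
    (taylor a h).coeff i = 0 := by
  apply coeff_eq_zero_of_natDegree_lt
  rw [natDegree_taylor]
  omega

end main

open Pool.Agent.W95.BK

theorem nwi : S_NWI.{u} := by
  intro K _ _ _ f a r hr
  set Af : ℕ → ℝ := fun i => ‖(taylor a (f.P - C a * f.Q)).coeff i‖ with hAf
  set Bf : ℕ → ℝ := fun i => ‖(taylor a f.Q).coeff i‖ with hBf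
  have hP : f.P.natDegree ≤ f.d := f.deg_eq ▸ le_max_left _ _
  have hQ : f.Q.natDegree ≤ f.d := f.deg_eq ▸ le_max_right _ _
  have hPQ : (f.P - C a * f.Q).natDegree ≤ f.d := by
    refine (natDegree_sub_le _ _).trans (max_le hP ?_)
    exact (natDegree_C_mul_le _ _).trans hQ
  have hQ0 : f.Q ≠ 0 := by
    intro h0
    have hcop := f.cop
    rw [h0, isCoprime_zero_right] at hcop
    have h1 := natDegree_eq_zero_of_isUnit hcop
    have h2 := f.deg_eq
    have h3 := f.pos
    rw [h0, h1] at h2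
    simp at h2
    omega
  have h : Hyp Af Bf f.d := by
    refine ⟨fun i => norm_nonneg _, fun i => norm_nonneg _, ?_, ?_, ?_⟩
    · intro i hi
      rw [hAf]
      simp only
      rw [taylor_coeff_zero a hPQ hi, norm_zero]
    · intro i hi
      rw [hBf]
      simp only
      rw [taylor_coeff_zero a hQ hi, norm_zero]
    · have h1 : taylor a f.Q ≠ 0 := by
        intro h0
        apply hQ0
        exact taylor_injective a (by rw [h0, map_zero])
      refine ⟨(taylor a f.Q).natDegree, ?_⟩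
      rw [hBf]
      simp only
      rw [norm_pos_iff]
      exact leadingCoeff_ne_zero.2 h1
  have ev : ∀ ρ i, vI f a ρ i = v Af Bf ρ i := fun ρ i => rfl
  have eM : ∀ ρ, Mx f a ρ = M Af Bf f.d ρ := fun ρ => rfl
  have eN : ∀ ρ, Nw f a ρ = N Af Bf f.d ρ := fun ρ => rfl
  have eI : ∀ ρ, Iw f a ρ = I Af Bf f.d ρ := fun ρ => rfl
  refine ⟨⟨h.M_pos hr, (Hyp.N_mem (A := Af) (B := Bf) (d := f.d) r).2,
    (Hyp.I_mem (A := Af) (B := Bf) (d := f.d) r).2, Hyp.N_le_I,
    (Hyp.I_mem (A := Af) (B := Bf) (d := f.d) r).1,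
    fun i => h.v_le hr i, fun i hi => h.lt_of_lt_N hr hi, fun i hi => h.lt_of_I_lt hr hi⟩, ?_,
    fun r' hrr => h.logs hr hrr, fun r' hrr => h.N_mono hr hrr, h.N_left hr,
    fun r' hrr => h.I_le hr hrr⟩
  -- the formula for the maximum
  rw [eM]
  apply le_antisymm
  · rw [← (Hyp.N_mem (A := Af) (B := Bf) (d := f.d) r).2]
    set k := N Af Bf f.d r
    unfold v
    rw [max_mul_of_nonneg _ _ (pow_nonneg hr.le _)]
    refine max_le_max (gn_le a hr _ k) ?_
    rw [mul_assoc]
    exact mul_le_mul_of_nonneg_left (gn_le a hr _ k) hr.le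
  · refine max_le ?_ ?_
    · obtain ⟨i, hi⟩ := gn_attained a (r := r) (f.P - C a * f.Q)
      rw [hi]
      refine le_trans ?_ (h.v_le hr i)
      exact mul_le_mul_of_nonneg_right (le_max_left _ _) (pow_nonneg hr.le _)
    · obtain ⟨i, hi⟩ := gn_attained a (r := r) f.Q
      rw [hi, ← mul_assoc]
      refine le_trans ?_ (h.v_le hr i)
      exact mul_le_mul_of_nonneg_right (le_max_right _ _) (pow_nonneg hr.le _)

end Pool.Agent.W564.BK
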